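import Pool.Agent.Helper53.CTG.All

/-!
# Call trees in unambiguous logarithmic space
-/

namespace Pool.Agent.Results.MP_8b4d68_lc.CallTrees

open Pool.Agent.Helper1.TE (USPACE)
open Pool.Agent.Helper53.CTG

/-- Deterministic recursion with arguments. A node of a complete binary tree is called with an
argument of `b` bits; it calls its two children one after the other (the second argument may depend
on the first result) and returns `b` bits; at the heights which are divisible by `q` only arguments
of `c` bits are passed. For the parameters `x = (N, q, b, c)` with `q b log₂ b ≤ C N` and `c ≤ C q` the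
root of a tree of height `N` can be evaluated in unambiguous nondeterministic space `O(log n)`, where
`n` is the length of the input. In particular (`q = b = c`) this holds for all recursions of this form
with `b² log₂ b ≤ C N`. The same holds for the complements. -/
theorem result : ∀ C : ℕ,
    CallTree {x | x.2.1 * x.2.2.1 * Nat.log 2 x.2.2.1 ≤ C * x.1 ∧ x.2.2.2 ≤ C * x.2.1} ∈
      USPACE (fun n => Real.log n) ∧
    (CallTree {x | x.2.1 * x.2.2.1 * Nat.log 2 x.2.2.1 ≤ C * x.1 ∧ x.2.2.2 ≤ C * x.2.1})ᶜ ∈
      USPACE (fun n => Real.log n) :=
  main_space.1

end Pool.Agent.Results.MP_8b4d68_lc.CallTrees
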