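import Pool.Agent.Helper1.TE.All

/-!
# Small nondeterministic thrifty branching programs for tree evaluation
-/

namespace Pool.Agent.Results.MP_8b4d68_lc.ThriftyPrograms

open Pool.Agent.Helper1.TE

/-- Nondeterministic thrifty `k`-way branching programs which compute the value of the root of a
tree of height `h`, unambiguously, with `exp (C (h + log k + √(h log k log log k)))` states. -/
theorem result : ∃ C : ℝ, ∀ h k : ℕ, 1 ≤ h → 2 ≤ k → ∃ B : BP k, B.Proper h ∧ B.Computes h ∧
    B.Unambiguous ∧ B.Thrifty h ∧
    (B.size : ℝ) ≤ Real.exp (C * (h + Real.log k + √(h * Real.log k * Real.log (Real.log k)))) :=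
  main_bp

end Pool.Agent.Results.MP_8b4d68_lc.ThriftyPrograms
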