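import Pool.Agent.Helper1.TE.All

/-!
# Tree evaluation in unambiguous space `O(log n √(log log n))`
-/

namespace Pool.Agent.Results.MP_8b4d68_lc.TreeEvaluation

open Pool.Agent.Helper1.TE

/-- The tree evaluation problem and its complement are in unambiguous nondeterministic space
`O(log n √(log log n))`; for the instances of height `h` with values of `b` bits, `b log₂ b ≤ C h`,
in unambiguous nondeterministic space `O(log n)`. -/
theorem result :
    (TreeEval Set.univ ∈ USPACE (fun n => Real.log n * √(Real.log (Real.log n))) ∧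
      (TreeEval Set.univ)ᶜ ∈ USPACE (fun n => Real.log n * √(Real.log (Real.log n)))) ∧
    ∀ C : ℕ, TreeEval {x | x.2 * Nat.log 2 x.2 ≤ C * x.1} ∈ USPACE (fun n => Real.log n) ∧
      (TreeEval {x | x.2 * Nat.log 2 x.2 ≤ C * x.1})ᶜ ∈ USPACE (fun n => Real.log n) :=
  main_space

end Pool.Agent.Results.MP_8b4d68_lc.TreeEvaluation
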