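import Pool.Agent.Helper53.CTG.All

/-!
# Call trees of arbitrary width in unambiguous space `O(log n √(log n log log n))`
-/

namespace Pool.Agent.Results.MP_8b4d68_lc.WideCallTrees

open Pool.Agent.Helper1.TE (USPACE)
open Pool.Agent.Helper53.CTG

/-- Deterministic recursion with arguments. A node of a complete binary tree is called with an
argument of `b` bits; it calls its two children one after the other (the second argument may depend
on the first result) and returns `b` bits; at the heights which are divisible by `q` only arguments
of `c` bits are passed. For the parameters `x = (N, q, b, c)` with arbitrary `b, c` and with `q` of the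
order `√(N / log₂ b)` (for `b = 1`: `N ≤ C q²`) the root of a tree of height `N` can be evaluated in
unambiguous nondeterministic space `O(log n √(log n log log n))`, where `n` is the length of the
input. The same holds for the complements. -/
theorem result : ∀ C : ℕ,
    CallTree {x | x.2.1 ^ 2 * Nat.log 2 x.2.2.1 ≤ C * x.1 ∧
        x.1 ≤ C * x.2.1 ^ 2 * (Nat.log 2 x.2.2.1 + 1)} ∈
      USPACE (fun n => Real.log n * √(Real.log n * Real.log (Real.log n))) ∧
    (CallTree {x | x.2.1 ^ 2 * Nat.log 2 x.2.2.1 ≤ C * x.1 ∧
        x.1 ≤ C * x.2.1 ^ 2 * (Nat.log 2 x.2.2.1 + 1)})ᶜ ∈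
      USPACE (fun n => Real.log n * √(Real.log n * Real.log (Real.log n))) :=
  main_space.2

end Pool.Agent.Results.MP_8b4d68_lc.WideCallTrees
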